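import Mathlib
import Pool.Agent.H119.MatPow5

set_option autoImplicit false

/-!
# Sums of powers of all matrices over a finite ring
-/

namespace Pool.Agent.Results.MP_0bd9b3_al.MatrixPowerSums

open Pool.Agent.H119.MatPow

universe u

/-- `pw a k = a ^ k` for `k ≥ 1` (the value at `0` is not used) -/
def pw {M : Type*} [Mul M] (a : M) : ℕ → M
  | 0 => a
  | 1 => a
  | (k + 2) => pw a (k + 1) * a

/-- the sum of the `k`-th powers of all `d × d` matrices over `R` -/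
def powSum (R : Type u) [NonUnitalRing R] [Fintype R] (d k : ℕ) : Matrix (Fin d) (Fin d) R :=
  ∑ A : Matrix (Fin d) (Fin d) R, pw A k

theorem pw_succ {M : Type*} [Mul M] (a : M) (k : ℕ) : pw a (k + 1) = q a k := by
  induction k with
  | zero => rfl
  | succ k ih => rw [pw, q, ih]

theorem powSum_succ (R : Type u) [NonUnitalRing R] [Fintype R] (d k : ℕ) :
    powSum R d (k + 1) = S R d k := by
  rw [S_eq, powSum]
  exact Finset.sum_congr rfl fun A _ => pw_succ A k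

theorem result (R : Type u) [NonUnitalRing R] [Fintype R] (d k : ℕ) (hd : 1 < d) (hk : 1 ≤ k) :
    (Fintype.card R % 4 = 2 → ∃! e : R, e ≠ 0 ∧ e + e = 0) ∧
    (¬ (d = 2 ∧ (Fintype.card R % 4 = 2 ∧ 1 < k ∧ (k % 6 = 5 ∨ k % 6 = 0 ∨ k % 6 = 1)) ∧
        ∃ e : R, (e ≠ 0 ∧ e + e = 0) ∧ e * e = e) → powSum R d k = 0) ∧
    (d = 2 → Fintype.card R % 4 = 2 → 1 < k → (k % 6 = 5 ∨ k % 6 = 0 ∨ k % 6 = 1) →
        ∀ e : R, e ≠ 0 → e + e = 0 → e * e = e →
          powSum R d k = Matrix.diagonal fun _ => e) := by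
  obtain ⟨m, rfl⟩ : ∃ m, k = m + 1 := ⟨k - 1, by omega⟩
  have h := main (Nat.card R) R rfl d hd m
  rw [powSum_succ]
  refine ⟨fun h4 => uniq (by rwa [Nat.card_eq_fintype_card]), fun hno => h.1 ?_, ?_⟩
  · rintro ⟨e, h1, h2, h3, h4, h5, h6⟩
    rw [Nat.card_eq_fintype_card] at h2
    exact hno ⟨h1, ⟨h2, h3.1, h3.2⟩, e, ⟨h4, h5⟩, h6⟩
  · intro h1 h2 h3 h4 e h5 h6 h7
    refine h.2 e ⟨h1, ?_, ⟨h3, h4⟩, h5, h6, h7⟩
    rwa [Nat.card_eq_fintype_card]

end Pool.Agent.Results.MP_0bd9b3_al.MatrixPowerSums
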